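import Pool.Agent.H54.DGS.Quot

/-!
# Vanishing of Ext between monomial modules, from a countably complete ultrafilter
-/

universe u

open CategoryTheory CategoryTheory.Limits FirstOrder FirstOrder.Language Filter

namespace H54

variable {L : FirstOrder.Language.{u, u}} {Λ : Type u}

section

variable {I : Type u} (U : Ultrafilter I) (Y : PSet L Λ)

/-- The short complex `Y → Y* → Y* / Y` of monomial modules. -/
noncomputable def ultQuo : ShortComplex (ModuleCat.{u} (SS L Λ)) :=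
  ShortComplex.mk (X₁ := ModuleCat.of (SS L Λ) Y.V) (X₂ := ModuleCat.of (SS L Λ) (Y.ult U).V)
    (X₃ := ModuleCat.of (SS L Λ)
      ((Y.ult U).quo (· ∈ Set.range (Y.dia U)) (range_closed (Y.dia U) (Y.a_dia U))).V)
    (ModuleCat.ofHom (PSet.mapV (Y.dia U) (Y.a_dia U)))
    (ModuleCat.ofHom ((Y.ult U).quoPi (· ∈ Set.range (Y.dia U))
      (range_closed (Y.dia U) (Y.a_dia U)))) (by
      ext v
      exact (mapV_exact (Y.dia U) (Y.a_dia U)).apply_apply_eq_zero v)

theorem ultQuo_shortExact : (ultQuo U Y).ShortExact :=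
  shortExact_of (PSet.mapV_injective (Y.dia U) (Y.a_dia U) (Y.dia_injective U))
    (mapV_exact (Y.dia U) (Y.a_dia U)) ((Y.ult U).quoPi_surjective _ _)

theorem ultQuo_f [CountableInterFilter (U : Filter I)] :
    ∃ t : ModuleCat.of (SS L Λ) (Germ (U : Filter I) Y.V) ⟶ (ultQuo U Y).X₂,
      (ultQuo U Y).f = ModuleCat.ofHom (ultDiag (U : Filter I) (SS L Λ) Y.V) ≫ t := by
  let e := LinearEquiv.ofBijective (Y.theta U) ⟨Y.theta_injective U, Y.theta_surjective U⟩
  refine ⟨ModuleCat.ofHom e.symm.toLinearMap, ?_⟩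
  ext v
  change PSet.mapV (Y.dia U) (Y.a_dia U) v = e.symm (ultDiag (U : Filter I) (SS L Λ) Y.V v)
  rw [LinearEquiv.eq_symm_apply, ← Y.theta_dia U v]
  rfl

end

/-- The Ext groups between the module of a large structure and any monomial module vanish. -/
theorem ext_eq_zero {A : Type u} [L.Structure A] (hΛ : Cardinal.aleph0 ≤ Cardinal.mk Λ)
    (hL : L.card ≤ Cardinal.mk Λ) (hA : Cardinal.mk Λ ≤ Cardinal.mk A)
    (U : Ultrafilter (El L Λ A)) [CountableInterFilter (U : Filter (El L Λ A))]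
    (hU : ∀ x : El L Λ A, ∀ᶠ y in (U : Filter (El L Λ A)), x.le y) (n : ℕ) :
    ∀ (Y : PSet L Λ) (e : Abelian.Ext
      (ModuleCat.of (SS L Λ) (El.pset (L := L) (Λ := Λ) A).V)
      (ModuleCat.of (SS L Λ) Y.V) (n + 1)), e = 0 := by
  induction n with
  | zero =>
    intro Y e
    have hT := ultQuo_shortExact U Y
    obtain ⟨t, ht⟩ := ultQuo_f U Y
    have h0 : e.comp (Abelian.Ext.mk₀ (ultQuo U Y).f) (add_zero (0 + 1)) = 0 := by
      rw [ht, ← Abelian.Ext.mk₀_comp_mk₀,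
        ← Abelian.Ext.comp_assoc _ _ _ (add_zero (0 + 1)) (add_zero 0) (by lia),
        ext_comp_diag (U : Filter (El L Λ A)) (ultProj _ hU) 0 _ e, Abelian.Ext.zero_comp]
    obtain ⟨x, hx⟩ := Abelian.Ext.covariant_sequence_exact₁ _ hT e h0 (n₀ := 0) rfl
    obtain ⟨φ, rfl⟩ := (Abelian.Ext.mk₀_bijective _ _).2 x
    obtain ⟨g, hg⟩ := exists_lift_quo hΛ hL hA (Y.ult U) (· ∈ Set.range (Y.dia U))
      (range_closed (Y.dia U) (Y.a_dia U)) φ.hom
    obtain ⟨g', hg'⟩ : ∃ g' : ModuleCat.of (SS L Λ) (El.pset (L := L) (Λ := Λ) A).V ⟶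
        (ultQuo U Y).X₂, g' ≫ (ultQuo U Y).g = φ := by
      refine ⟨ModuleCat.ofHom g, ?_⟩
      ext v
      exact hg v
    rw [← hx, ← hg', ← Abelian.Ext.mk₀_comp_mk₀_assoc,
      ShortComplex.ShortExact.comp_extClass, Abelian.Ext.comp_zero]
    rfl
  | succ n ih =>
    intro Y e
    have hT := ultQuo_shortExact U Y
    obtain ⟨t, ht⟩ := ultQuo_f U Y
    have h0 : e.comp (Abelian.Ext.mk₀ (ultQuo U Y).f) (add_zero (n + 1 + 1)) = 0 := by
      rw [ht, ← Abelian.Ext.mk₀_comp_mk₀,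
        ← Abelian.Ext.comp_assoc _ _ _ (add_zero (n + 1 + 1)) (add_zero 0) (by lia),
        ext_comp_diag (U : Filter (El L Λ A)) (ultProj _ hU) (n + 1) _ e,
        Abelian.Ext.zero_comp]
    obtain ⟨x, hx⟩ := Abelian.Ext.covariant_sequence_exact₁ _ hT e h0 (n₀ := n + 1) rfl
    have hx0 : x = 0 := ih _ x
    rw [← hx, hx0, Abelian.Ext.zero_comp]
    rfl

end H54
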