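import Pool.Agent.H54.DGP.Complexes

/-!
# Reduced powers of modules and Ext
-/

universe u

open CategoryTheory CategoryTheory.Limits Filter

namespace H54

section ult

variable {S : Type u} [Ring S] {I : Type u} (U : Filter I)
variable {X Y Z : Type u} [AddCommGroup X] [Module S X] [AddCommGroup Y] [Module S Y]
  [AddCommGroup Z] [Module S Z]

/-- The reduced power of a linear map. -/
def ultMap (f : X →ₗ[S] Y) : Germ U X →ₗ[S] Germ U Y where
  toFun := Germ.map f
  map_add' a b := by
    induction a using Germ.inductionOn with | _ a => ?_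
    induction b using Germ.inductionOn with | _ b => ?_
    rw [← Germ.coe_add, Germ.map_coe, Germ.map_coe, Germ.map_coe, ← Germ.coe_add]
    congr 1
    ext i
    exact f.map_add _ _
  map_smul' s a := by
    induction a using Germ.inductionOn with | _ a => ?_
    rw [← Germ.coe_smul, Germ.map_coe, Germ.map_coe, RingHom.id_apply, ← Germ.coe_smul]
    congr 1
    ext i
    exact f.map_smul _ _

@[simp] theorem ultMap_coe (f : X →ₗ[S] Y) (a : I → X) :
    ultMap U f (a : Germ U X) = ((f ∘ a : I → Y) : Germ U Y) := rfl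

/-- The diagonal. -/
def ultDiag (S : Type u) [Ring S] (X : Type u) [AddCommGroup X] [Module S X] :
    X →ₗ[S] Germ U X where
  toFun x := ((fun _ => x : I → X) : Germ U X)
  map_add' _ _ := rfl
  map_smul' _ _ := rfl

@[simp] theorem ultDiag_apply (x : X) :
    ultDiag U S X x = ((fun _ => x : I → X) : Germ U X) := rfl

theorem ultMap_ultDiag (f : X →ₗ[S] Y) (x : X) :
    ultMap U f (ultDiag U S X x) = ultDiag U S Y (f x) := rfl

theorem ultMap_injective {f : X →ₗ[S] Y} (hf : Function.Injective f) :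
    Function.Injective (ultMap U f) := by
  intro a b h
  induction a using Germ.inductionOn with | _ a => ?_
  induction b using Germ.inductionOn with | _ b => ?_
  rw [ultMap_coe, ultMap_coe, Germ.coe_eq] at h
  rw [Germ.coe_eq]
  exact h.mono fun i hi => hf hi

theorem ultMap_surjective {f : X →ₗ[S] Y} (hf : Function.Surjective f) :
    Function.Surjective (ultMap U f) := by
  intro b
  induction b using Germ.inductionOn with | _ b => ?_
  choose g hg using hf
  refine ⟨((g ∘ b : I → X) : Germ U X), ?_⟩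
  rw [ultMap_coe]
  congr 1
  ext i
  exact hg _

theorem ultMap_exact {f : X →ₗ[S] Y} {g : Y →ₗ[S] Z} (h : Function.Exact f g) :
    Function.Exact (ultMap U f) (ultMap U g) := by
  intro y
  induction y using Germ.inductionOn with | _ y => ?_
  rw [ultMap_coe]
  constructor
  · intro hy
    have hy' : (g ∘ y) =ᶠ[U] (fun _ => 0) := Germ.coe_eq.1 hy
    have hex : ∀ i, ∃ x : X, g (y i) = 0 → f x = y i := by
      intro i
      by_cases hi : g (y i) = 0
      · obtain ⟨x, hx⟩ := (h (y i)).1 hi
        exact ⟨x, fun _ => hx⟩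
      · exact ⟨0, fun h => absurd h hi⟩
    choose x hx using hex
    refine ⟨(x : Germ U X), ?_⟩
    rw [ultMap_coe, Germ.coe_eq]
    exact hy'.mono fun i hi => hx i hi
  · rintro ⟨x, hx⟩
    induction x using Germ.inductionOn with | _ x => ?_
    rw [ultMap_coe, Germ.coe_eq] at hx
    change ((g ∘ y : I → Z) : Germ U Z) = ((fun _ => 0 : I → Z) : Germ U Z)
    rw [Germ.coe_eq]
    exact hx.mono fun i hi => by
      change g (y i) = 0
      rw [← hi]
      exact h.apply_apply_eq_zero _

/-- Maps from `M` lift along surjections after passing to the reduced power. -/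
def UltProj (S : Type u) [Ring S] (M : Type u) [AddCommGroup M] [Module S M] : Prop :=
  ∀ (P Q : Type u) [AddCommGroup P] [Module S P] [AddCommGroup Q] [Module S Q]
    (q : P →ₗ[S] Q), Function.Surjective q → ∀ φ : M →ₗ[S] Q,
      ∃ ψ : M →ₗ[S] Germ U P, ∀ m, ultMap U q (ψ m) = ultDiag U S Q (φ m)

end ult

section ext

variable {S : Type u} [Ring S] {I : Type u} (U : Filter I)

/-- The reduced power of a short complex. -/
def ultSC (T : ShortComplex (ModuleCat.{u} S)) : ShortComplex (ModuleCat.{u} S) :=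
  ShortComplex.mk (X₁ := ModuleCat.of S (Germ U T.X₁)) (X₂ := ModuleCat.of S (Germ U T.X₂))
    (X₃ := ModuleCat.of S (Germ U T.X₃))
    (ModuleCat.ofHom (ultMap U T.f.hom)) (ModuleCat.ofHom (ultMap U T.g.hom)) (by
      ext x
      induction x using Germ.inductionOn with | _ x => ?_
      change ((T.g.hom ∘ T.f.hom ∘ x : I → T.X₃) : Germ U T.X₃) = ((fun _ => 0 : I → T.X₃) :
        Germ U T.X₃)
      congr 1
      ext i
      exact LinearMap.congr_fun (congrArg ModuleCat.Hom.hom T.zero) (x i))

/-- A short exact sequence of modules. -/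
theorem shortExact_of {T : ShortComplex (ModuleCat.{u} S)} (h1 : Function.Injective T.f.hom)
    (h2 : Function.Exact T.f.hom T.g.hom) (h3 : Function.Surjective T.g.hom) : T.ShortExact := by
  have : Mono T.f := (ModuleCat.mono_iff_injective _).2 h1
  have : Epi T.g := (ModuleCat.epi_iff_surjective _).2 h3
  exact ⟨(ShortComplex.ShortExact.moduleCat_exact_iff_function_exact _).2 h2⟩

theorem ultSC_shortExact {T : ShortComplex (ModuleCat.{u} S)} (hT : T.ShortExact) :
    (ultSC U T).ShortExact :=
  shortExact_of (ultMap_injective U hT.moduleCat_injective_f)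
    (ultMap_exact U ((ShortComplex.ShortExact.moduleCat_exact_iff_function_exact _).1 hT.exact))
    (ultMap_surjective U hT.moduleCat_surjective_g)

/-- The diagonal as a map of short complexes. -/
def diagSC (T : ShortComplex (ModuleCat.{u} S)) : T ⟶ ultSC U T where
  τ₁ := ModuleCat.ofHom (ultDiag U S T.X₁)
  τ₂ := ModuleCat.ofHom (ultDiag U S T.X₂)
  τ₃ := ModuleCat.ofHom (ultDiag U S T.X₃)
  comm₁₂ := rfl
  comm₂₃ := rfl

variable {M : ModuleCat.{u} S}

/-- The Ext groups of a module with the lifting property are killed by the diagonal. -/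
theorem ext_comp_diag (hM : UltProj U S M) (n : ℕ) : ∀ (Z : ModuleCat.{u} S)
    (e : Abelian.Ext M Z (n + 1)),
    e.comp (Abelian.Ext.mk₀ (ModuleCat.ofHom (ultDiag U S Z))) (add_zero _) = 0 := by
  induction n with
  | zero =>
    intro Z e
    let T : ShortComplex (ModuleCat.{u} S) := ShortComplex.mk (Injective.ι Z)
      (cokernel.π (Injective.ι Z)) (cokernel.condition _)
    have hT : T.ShortExact := ⟨ShortComplex.exact_of_g_is_cokernel _
      (cokernelIsCokernel (Injective.ι Z))⟩
    have h0 : e.comp (Abelian.Ext.mk₀ T.f) (add_zero 1) = 0 :=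
      Abelian.Ext.eq_zero_of_injective _
    obtain ⟨x, hx⟩ := Abelian.Ext.covariant_sequence_exact₁ M hT e h0 (n₀ := 0) rfl
    obtain ⟨φ, rfl⟩ := (Abelian.Ext.mk₀_bijective _ _).2 x
    obtain ⟨ψ, hψ⟩ := hM T.X₂ T.X₃ T.g.hom hT.moduleCat_surjective_g φ.hom
    have hUT := ultSC_shortExact U hT
    have hn := ShortComplex.ShortExact.extClass_naturality hT hUT (diagSC U T)
    obtain ⟨ψ', hψ'⟩ : ∃ ψ' : M ⟶ (ultSC U T).X₂, ∀ m, ψ'.hom m = ψ m :=
      ⟨ModuleCat.ofHom ψ, fun _ => rfl⟩
    have hcomm : φ ≫ (diagSC U T).τ₃ = ψ' ≫ (ultSC U T).g := by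
      ext m
      refine (hψ m).symm.trans ?_
      rw [← hψ' m]
      rfl
    rw [← hx]
    change (((Abelian.Ext.mk₀ φ).comp hT.extClass (zero_add 1)).comp
      (Abelian.Ext.mk₀ (diagSC U T).τ₁) (add_zero 1)) = 0
    rw [Abelian.Ext.comp_assoc _ _ _ (zero_add 1) (add_zero 1) (by lia), hn,
      Abelian.Ext.mk₀_comp_mk₀_assoc, hcomm, ← Abelian.Ext.mk₀_comp_mk₀_assoc,
      ShortComplex.ShortExact.comp_extClass, Abelian.Ext.comp_zero]
  | succ n ih =>
    intro Z e
    let T : ShortComplex (ModuleCat.{u} S) := ShortComplex.mk (Injective.ι Z)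
      (cokernel.π (Injective.ι Z)) (cokernel.condition _)
    have hT : T.ShortExact := ⟨ShortComplex.exact_of_g_is_cokernel _
      (cokernelIsCokernel (Injective.ι Z))⟩
    have h0 : e.comp (Abelian.Ext.mk₀ T.f) (add_zero (n + 1 + 1)) = 0 :=
      Abelian.Ext.eq_zero_of_injective _
    obtain ⟨x, hx⟩ := Abelian.Ext.covariant_sequence_exact₁ M hT e h0 (n₀ := n + 1) rfl
    have hUT := ultSC_shortExact U hT
    have hn := ShortComplex.ShortExact.extClass_naturality hT hUT (diagSC U T)
    have hx0 := ih T.X₃ x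
    rw [← hx]
    change ((x.comp hT.extClass rfl).comp
      (Abelian.Ext.mk₀ (diagSC U T).τ₁) (add_zero (n + 1 + 1))) = 0
    rw [Abelian.Ext.comp_assoc _ _ _ rfl (add_zero 1) (by lia), hn]
    rw [← Abelian.Ext.comp_assoc _ _ _ (add_zero (n + 1)) (zero_add 1) (by lia)]
    change (x.comp (Abelian.Ext.mk₀ (ModuleCat.ofHom (ultDiag U S T.X₃))) _).comp _ _ = 0
    rw [hx0, Abelian.Ext.zero_comp]

end ext

end H54
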