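import Pool.Agent.H54.DGP.Small
import Pool.Agent.H54.DGS.Ult

/-!
# Homomorphisms out of monomial modules, and the lifting property
-/

universe u

open FirstOrder FirstOrder.Language Filter

namespace H54

variable {L : FirstOrder.Language.{u, u}} {Λ : Type u}

section lift

variable {P : Type u} [AddCommGroup P]

/-- The additive map `ZMod 2 → P` with value `p` at `1`. -/
def z2 (two : ∀ v : P, v + v = 0) (p : P) : ZMod 2 →+ P :=
  ZMod.lift 2 ⟨zmultiplesHom P p, by
    rw [zmultiplesHom_apply]
    have : ((2 : ℕ) : ℤ) • p = p + p := by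
      rw [natCast_zsmul, two_nsmul]
    rw [this, two]⟩

theorem z2_one (two : ∀ v : P, v + v = 0) (p : P) : z2 two p 1 = p := by
  have h := ZMod.lift_coe 2 ⟨zmultiplesHom P p, by
    rw [zmultiplesHom_apply]
    have : ((2 : ℕ) : ℤ) • p = p + p := by
      rw [natCast_zsmul, two_nsmul]
    rw [this, two]⟩ 1
  rw [Int.cast_one] at h
  refine h.trans ?_
  rw [zmultiplesHom_apply, one_smul]

/-- The additive map on a monomial module with given values on the basis. -/
noncomputable def PSet.addLift (Y : PSet L Λ) (two : ∀ v : P, v + v = 0) (g : Y.Y → P) :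
    Y.V →+ P :=
  (Finsupp.liftAddHom fun y => z2 two (g y)).comp Y.val

theorem PSet.addLift_b (Y : PSet L Λ) (two : ∀ v : P, v + v = 0) (g : Y.Y → P)
    (o : Option Y.Y) : Y.addLift two g (Y.b o) = o.elim 0 g := by
  cases o with
  | none => exact map_zero _
  | some y =>
    change Finsupp.liftAddHom (fun y => z2 two (g y)) (Finsupp.single y 1) = _
    rw [Finsupp.liftAddHom_apply_single, z2_one]
    rfl

variable (L Λ) in
theorem char_two (P : Type u) [AddCommGroup P] [Module (SS L Λ) P] (v : P) : v + v = 0 := by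
  have : ((1 : SS L Λ) + 1) • v = 0 := by rw [SS.two, zero_smul]
  rwa [add_smul, one_smul] at this

variable [Module (SS L Λ) P]

/-- The homomorphism on a monomial module with given values on the basis. -/
noncomputable def PSet.lift (Y : PSet L Λ) (g : Y.Y → P)
    (h : ∀ m y, gen m • g y = (Y.a m y).elim 0 g) : Y.V →ₗ[SS L Λ] P :=
  linOfGen (Y.addLift (char_two L Λ P) g) (by
    intro m v
    refine Y.V_induction (p := fun v => Y.addLift (char_two L Λ P) g (gen m • v) =
      gen m • Y.addLift (char_two L Λ P) g v) ?_ ?_ ?_ v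
    · rw [smul_zero, map_zero, smul_zero]
    · intro v w hv hw
      rw [smul_add, map_add, map_add, smul_add, hv, hw]
    · intro y
      rw [PSet.gen_smul_b, PSet.addLift_b, PSet.addLift_b]
      exact (h m y).symm)

theorem PSet.lift_b (Y : PSet L Λ) (g : Y.Y → P)
    (h : ∀ m y, gen m • g y = (Y.a m y).elim 0 g) (y : Y.Y) :
    Y.lift g h (Y.b (some y)) = g y :=
  Y.addLift_b (char_two L Λ P) g (some y)

theorem PSet.hom_ext (Y : PSet L Λ) {f f' : Y.V →ₗ[SS L Λ] P}
    (h : ∀ y, f (Y.b (some y)) = f' (Y.b (some y))) : f = f' := by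
  ext v : 1
  refine Y.V_induction (p := fun v => f v = f' v) ?_ ?_ h v
  · rw [map_zero, map_zero]
  · intro v w hv hw
    rw [map_add, map_add, hv, hw]

end lift

section

variable {A : Type u} [L.Structure A]

theorem act_none {m : Mor L Λ} {x : El L Λ A} (h : El.act m x = none) {y : El L Λ A}
    (hxy : x.le y) : m.comp (El.tr hxy) = none := by
  rcases hc : m.comp (El.tr hxy) with _ | c
  · rfl
  · obtain ⟨h1, _⟩ := Mor.comp_eq_some.1 hc
    obtain ⟨z, hz⟩ := El.act_isSome (x := x) (m := m) h1
    rw [h] at hz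
    cases hz

theorem act_le {m : Mor L Λ} {x z : El L Λ A} (h : El.act m x = some z) : z.le x := by
  obtain ⟨_, _, h3⟩ := El.act_eq_some.1 h
  rintro _ ⟨l, rfl⟩
  exact ⟨m.fn l, by rw [h3]; rfl⟩

theorem act_some {m : Mor L Λ} {x z : El L Λ A} (h : El.act m x = some z) {y : El L Λ A}
    (hxy : x.le y) : m.comp (El.tr hxy) = some (El.tr (El.le_trans (act_le h) hxy)) := by
  obtain ⟨h1, h2, h3⟩ := El.act_eq_some.1 h
  refine Mor.comp_eq_some.2 ⟨h1, h2, rfl, ?_⟩
  ext l
  apply y.injective
  rw [El.tr_fn, Function.comp_apply, El.tr_fn, h3]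
  rfl

/-- The module of a structure has the lifting property for every filter containing the cones. -/
theorem ultProj (U : Filter (El L Λ A)) (hU : ∀ x : El L Λ A, ∀ᶠ y in U, x.le y) :
    UltProj U (SS L Λ) (El.pset (L := L) (Λ := Λ) A).V := by
  classical
  intro P Q _ _ _ _ q hq φ
  have hex : ∀ a : El L Λ A, ∃ p : P, q p = φ ((El.pset A).b (some a)) := fun a => hq _
  choose p hp using hex
  let g₀ : El L Λ A → El L Λ A → P := fun y a =>
    if h : y.le a then gen (El.tr h) • p a else 0
  let g : El L Λ A → Germ U P := fun y => (g₀ y : Germ U P)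
  have hg : ∀ m (y : (El.pset (L := L) (Λ := Λ) A).Y), gen m • g y =
      ((El.pset (L := L) (Λ := Λ) A).a m y).elim 0 g := by
    intro m y
    change gen m • (g₀ y : Germ U P) = (El.act m y).elim 0 g
    rw [← Germ.coe_smul]
    rcases hz : El.act m y with _ | z
    · change ((gen m • g₀ y : El L Λ A → P) : Germ U P) = ((0 : El L Λ A → P) : Germ U P)
      congr 1
      ext a
      change gen m • g₀ y a = 0
      by_cases h : El.le y a
      · simp only [g₀]
        rw [dif_pos h, ← mul_smul, gen_mul_gen_none (act_none hz h), zero_smul]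
      · simp only [g₀]
        rw [dif_neg h, smul_zero]
    · change ((gen m • g₀ y : El L Λ A → P) : Germ U P) = (g₀ z : Germ U P)
      rw [Germ.coe_eq]
      refine (hU y).mono fun a h => ?_
      change gen m • g₀ y a = g₀ z a
      simp only [g₀]
      rw [dif_pos h, dif_pos (El.le_trans (act_le hz) h), ← mul_smul,
        gen_mul_gen (act_some hz h)]
  refine ⟨(El.pset A).lift g hg, fun v => ?_⟩
  have key : (ultMap U q) ∘ₗ (El.pset A).lift g hg = (ultDiag U (SS L Λ) Q) ∘ₗ φ := by
    refine PSet.hom_ext _ fun y => ?_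
    rw [LinearMap.comp_apply, LinearMap.comp_apply, PSet.lift_b]
    change ((q ∘ g₀ y : El L Λ A → Q) : Germ U Q) = ((fun _ => _ : El L Λ A → Q) : Germ U Q)
    rw [Germ.coe_eq]
    refine (hU y).mono fun a h => ?_
    change q (g₀ y a) = φ ((El.pset A).b (some y))
    simp only [g₀]
    rw [dif_pos h, map_smul, hp, ← map_smul, PSet.gen_smul_b]
    congr 2
    exact El.act_tr h
  exact LinearMap.congr_fun key v

end

end H54
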