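import Pool.Agent.H54.DGP.Pres

/-!
# The canonical free resolution
-/

universe u

open CategoryTheory CategoryTheory.Limits

namespace H54

section res

variable {S : Type u} [Ring S] (M : ModuleCat.{u} S)

/-- The iterated syzygies. -/
noncomputable def syz : ℕ → ModuleCat.{u} S
  | 0 => M
  | j + 1 => ModuleCat.of S ↥(LinearMap.ker (cov (S := S) (syz j)))

/-- The inclusion of the next syzygy. -/
noncomputable def syzIncl (j : ℕ) : syz M (j + 1) →ₗ[S] (syz M j →₀ S) :=
  (LinearMap.ker (cov (S := S) (syz M j))).subtype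

theorem cov_syzIncl (j : ℕ) (x : syz M (j + 1)) : cov (S := S) (syz M j) (syzIncl M j x) = 0 :=
  x.2

/-- The canonical free resolution. -/
noncomputable def res (hS : (1 : S) + 1 = 0) : Cpx S where
  F j := (syz M j →₀ S)
  δ j := syzIncl M j ∘ₗ cov (S := S) (syz M (j + 1))
  δ_δ j x := by
    change syzIncl M j (cov (S := S) (syz M (j + 1)) (syzIncl M (j + 1) _)) = 0
    rw [cov_syzIncl, map_zero]
  two j v := two_of hS _ v

instance (hS : (1 : S) + 1 = 0) (j : ℕ) : Module.Projective S ((res M hS).F j) :=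
  inferInstanceAs (Module.Projective S (syz M j →₀ S))

/-- The short exact sequences of the resolution. -/
noncomputable def syzSC (j : ℕ) : ShortComplex (ModuleCat.{u} S) :=
  ShortComplex.mk (X₁ := syz M (j + 1)) (X₂ := ModuleCat.of S (syz M j →₀ S)) (X₃ := syz M j)
    (ModuleCat.ofHom (syzIncl M j)) (ModuleCat.ofHom (cov (S := S) (syz M j))) (by
      ext x
      exact cov_syzIncl M j x)

theorem syzSC_shortExact (j : ℕ) : (syzSC M j).ShortExact := by
  have : Mono (syzSC M j).f := (ModuleCat.mono_iff_injective _).2 Subtype.val_injective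
  have : Epi (syzSC M j).g := (ModuleCat.epi_iff_surjective _).2 (cov_surjective _)
  refine ⟨(ShortComplex.ShortExact.moduleCat_exact_iff_function_exact _).2 ?_⟩
  intro x
  constructor
  · intro h
    exact ⟨⟨x, h⟩, rfl⟩
  · rintro ⟨y, rfl⟩
    exact cov_syzIncl M j y

instance (j : ℕ) : Projective (syzSC M j).X₂ :=
  ModuleCat.projective_of_categoryTheory_projective (ModuleCat.of S (syz M j →₀ S))

variable {M}

theorem ext_syz {N : ModuleCat.{u} S} (hM : ∀ (n : ℕ) (e : Abelian.Ext M N (n + 1)), e = 0)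
    (j : ℕ) : ∀ (n : ℕ) (e : Abelian.Ext (syz M j) N (n + 1)), e = 0 := by
  induction j with
  | zero => exact hM
  | succ j ih =>
    intro n e
    have h1 : (syzSC_shortExact M j).extClass.comp e (by lia : 1 + (n + 1) = n + 1 + 1) = 0 :=
      ih (n + 1) _
    obtain ⟨x, hx⟩ := Abelian.Ext.contravariant_sequence_exact₁ (syzSC_shortExact M j) N e
      (by lia : 1 + (n + 1) = n + 1 + 1) h1
    have hx0 : x = 0 := Abelian.Ext.eq_zero_of_projective _
    rw [← hx, hx0, Abelian.Ext.comp_zero]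
    rfl

theorem exists_syz_extension {N : ModuleCat.{u} S}
    (hM : ∀ (n : ℕ) (e : Abelian.Ext M N (n + 1)), e = 0) (j : ℕ)
    (g : syz M (j + 1) →ₗ[S] N) : ∃ h : (syz M j →₀ S) →ₗ[S] N, ∀ x, h (syzIncl M j x) = g x := by
  have h1 : (syzSC_shortExact M j).extClass.comp (Abelian.Ext.mk₀ (ModuleCat.ofHom g))
      (by lia : 1 + 0 = 1) = 0 := ext_syz hM j 0 _
  obtain ⟨x, hx⟩ := Abelian.Ext.contravariant_sequence_exact₁ (syzSC_shortExact M j) N
    (Abelian.Ext.mk₀ (ModuleCat.ofHom g)) (by lia : 1 + 0 = 1) h1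
  obtain ⟨h, rfl⟩ := (Abelian.Ext.mk₀_bijective _ _).2 x
  rw [Abelian.Ext.mk₀_comp_mk₀] at hx
  have h2 := (Abelian.Ext.mk₀_bijective _ _).1 hx
  refine ⟨h.hom, fun x => ?_⟩
  exact LinearMap.congr_fun (congrArg ModuleCat.Hom.hom h2) x

/-- The extension property of the resolution. -/
theorem res_h1 (hS : (1 : S) + 1 = 0) {N : ModuleCat.{u} S}
    (hM : ∀ (n : ℕ) (e : Abelian.Ext M N (n + 1)), e = 0) (j : ℕ)
    (g : (res M hS).F (j + 1) →ₗ[S] N) (hg : ∀ x, g ((res M hS).δ (j + 1) x) = 0) :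
    ∃ h : (res M hS).F j →ₗ[S] N, ∀ x, g x = h ((res M hS).δ j x) := by
  obtain ⟨g', hg'⟩ := exists_factor (syz M (j + 1)) g hg
  obtain ⟨h, hh⟩ := exists_syz_extension hM j g'
  exact ⟨h, fun x => (hg' x).trans (hh _).symm⟩

theorem res_h0 (hS : (1 : S) + 1 = 0) {N : ModuleCat.{u} S}
    (hM : ∀ g : M →ₗ[S] N, g = 0)
    (g : (res M hS).F 0 →ₗ[S] N) (hg : ∀ x, g ((res M hS).δ 0 x) = 0) : g = 0 := by
  obtain ⟨g', hg'⟩ := exists_factor (syz M 0) g hg
  have h3 := hM g'
  ext x : 1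
  exact (hg' x).trans (by rw [h3]; rfl)

end res

end H54
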