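import Pool.Agent.H54.DGP.Main
import Pool.Agent.H54.DGS.ExtVan
import Pool.Agent.H54.DGS.Res

/-!
# Relative Gorenstein projective modules in the usual sense
-/

universe u

open CategoryTheory CategoryTheory.Limits Cardinal FirstOrder FirstOrder.Language

namespace DGP

/-- The class of `𝒳`-Gorenstein projective modules in the usual sense: there is an acyclic
complex `P` of projective modules with `Hom (P, X)` exact for all `X ∈ 𝒳`, and
`G ≅ ker (P⁰ → P¹)`. -/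
def StdXGP {R : Type u} [Ring R] (𝒳 : Set (ModuleCat.{u} R)) : Set (ModuleCat.{u} R) :=
  {G | ∃ P : CochainComplex (ModuleCat.{u} R) ℤ, P.Acyclic ∧ (∀ n, Projective (P.X n)) ∧
      (∀ X ∈ 𝒳, ∀ (n : ℤ) (f : P.X n ⟶ X), P.d (n - 1) n ≫ f = 0 →
        ∃ g : P.X (n + 1) ⟶ X, P.d n (n + 1) ≫ g = f) ∧
      Nonempty (G ≅ kernel (P.d 0 1))}

/-- `κ` is `ω₁`-strongly compact: every proper filter (on a set) which is closed under
intersections of fewer than `κ` sets extends to a countably complete ultrafilter. -/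
def OmegaOneStronglyCompact (κ : Cardinal.{u}) : Prop :=
  ∀ (I : Type u) (F : Filter I), F.NeBot → CardinalInterFilter F κ →
    ∃ U : Ultrafilter I, (U : Filter I) ≤ F ∧ CountableInterFilter (U : Filter I)

end DGP

namespace H54

open DGP

section std

variable {R : Type u} [Ring R]

theorem exact_of_acyclic {P : CochainComplex (ModuleCat.{u} R) ℤ} (hP : P.Acyclic)
    {i j k : ℤ} (hij : i + 1 = j) (hjk : j + 1 = k) :
    Function.Exact (P.d i j).hom (P.d j k).hom := by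
  have h := hP j
  rw [HomologicalComplex.exactAt_iff' P i j k ((ComplexShape.up ℤ).prev_eq' hij)
    ((ComplexShape.up ℤ).next_eq' hjk)] at h
  exact (ShortComplex.ShortExact.moduleCat_exact_iff_function_exact _).1 h

theorem stdXGP_subset_perpOne (𝒳 : Set (ModuleCat.{u} R)) : StdXGP 𝒳 ⊆ PerpOne 𝒳 := by
  rintro G ⟨P, hP, hproj, hhom, ⟨e⟩⟩
  have e1 : kernel (P.d 0 1) ≅ ModuleCat.of R (LinearMap.ker (P.d 0 1).hom) :=
    ModuleCat.kernelIsoKer _
  refine perpOne_of_iso (e ≪≫ e1).symm fun X hX => ?_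
  have hex1 := exact_of_acyclic hP (i := -1) (j := 0) (k := 1) (by norm_num) (by norm_num)
  have hex2 := exact_of_acyclic hP (i := -2) (j := -1) (k := 0) (by norm_num) (by norm_num)
  let q : P.X (-1) →ₗ[R] LinearMap.ker (P.d 0 1).hom :=
    LinearMap.codRestrict _ (P.d (-1) 0).hom fun x => hex1.apply_apply_eq_zero x
  let T : ShortComplex (ModuleCat.{u} R) :=
    ShortComplex.mk (X₁ := ModuleCat.of R (LinearMap.ker (P.d (-1) 0).hom))
      (X₂ := P.X (-1)) (X₃ := ModuleCat.of R (LinearMap.ker (P.d 0 1).hom))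
      (ModuleCat.ofHom (LinearMap.ker (P.d (-1) 0).hom).subtype)
      (ModuleCat.ofHom q) (by
        ext x
        exact x.2)
  have hT : T.ShortExact := by
    refine shortExact_of (T := T) Subtype.val_injective ?_ ?_
    · intro x
      constructor
      · intro hx
        exact ⟨⟨x, congrArg Subtype.val hx⟩, rfl⟩
      · rintro ⟨y, rfl⟩
        exact Subtype.ext y.2
    · rintro ⟨x, hx⟩
      obtain ⟨y, hy⟩ := (hex1 x).1 hx
      exact ⟨y, Subtype.ext hy⟩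
  have hpr : Projective T.X₂ := hproj (-1)
  refine ext_subsingleton_of_lift hT X fun f => ?_
  let r : P.X (-2) →ₗ[R] LinearMap.ker (P.d (-1) 0).hom :=
    LinearMap.codRestrict _ (P.d (-2) (-1)).hom fun x => hex2.apply_apply_eq_zero x
  have h0 : P.d (-2 - 1) (-2) ≫ ModuleCat.ofHom (f.hom ∘ₗ r) = 0 := by
    have hex3 := exact_of_acyclic hP (i := -2 - 1) (j := -2) (k := -1) (by norm_num)
      (by norm_num)
    ext x
    change f.hom (r ((P.d (-2 - 1) (-2)).hom x)) = 0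
    have : r ((P.d (-2 - 1) (-2)).hom x) = 0 := Subtype.ext (hex3.apply_apply_eq_zero x)
    rw [this, map_zero]
  obtain ⟨g, hg⟩ := hhom X hX (-2) (ModuleCat.ofHom (f.hom ∘ₗ r)) h0
  have hg' : ∀ y : P.X (-2), g.hom ((P.d (-2) (-1)).hom y) = f.hom (r y) := fun y =>
    LinearMap.congr_fun (congrArg ModuleCat.Hom.hom hg) y
  refine ⟨g, ?_⟩
  ext x
  obtain ⟨y, hy⟩ := (hex2 x.1).1 x.2
  have h1 : r y = x := Subtype.ext hy
  change g.hom x.1 = f.hom x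
  rw [← h1, ← hg' y]
  rfl

end std

section gor

variable {S : Type u} [Ring S]

theorem Cpx.gor_mem_stdXGP (hS : (1 : S) + 1 = 0) (C : Cpx S)
    [∀ j, Module.Projective S (C.F j)] (𝒩 : Set (ModuleCat.{u} S))
    (h0 : ∀ N ∈ 𝒩, ∀ g : C.F 0 →ₗ[S] N, (∀ x, g (C.δ 0 x) = 0) → g = 0)
    (h1 : ∀ N ∈ 𝒩, ∀ (j : ℕ) (g : C.F (j + 1) →ₗ[S] N),
      (∀ x, g (C.δ (j + 1) x) = 0) → ∃ h : C.F j →ₗ[S] N, ∀ x, g x = h (C.δ j x)) :
    C.gor 0 ∈ StdXGP (vclass hS 𝒩) := by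
  have := C.projective_dat
  refine ⟨C.dat.cplx, C.dat.cplx_acyclic, C.dat.cplx_projective, ?_, ?_⟩
  · rintro _ ⟨N, hN, rfl⟩ n f hf
    obtain ⟨m, rfl⟩ : ∃ m, n = m + 1 := ⟨n - 1, by ring⟩
    have hm : m + 1 - 1 = m := by ring
    rw [hm, Dat.cplx_d] at hf
    let f₁ : (C.dat.sc (m + 1)).X₂ ⟶ vtx hS (-1) N := f
    have hf₁ : (C.dat.sc (m + 1)).f ≫ f₁ = 0 := by
      ext x
      obtain ⟨y, hy⟩ := C.dat.pMap_surjective m x
      have h2 : f₁.hom (C.dat.iMap (m + 1) (C.dat.pMap m y)) = 0 :=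
        LinearMap.congr_fun (congrArg ModuleCat.Hom.hom hf) y
      rw [hy] at h2
      exact h2
    have hSE := C.dat.sc_shortExact (m + 1)
    have := hSE.epi_g
    obtain ⟨f₂, hf₂⟩ : ∃ f₂ : (C.dat.sc (m + 1)).X₃ ⟶ vtx hS (-1) N,
        (C.dat.sc (m + 1)).g ≫ f₂ = f₁ := ⟨hSE.exact.desc f₁ hf₁, hSE.exact.g_desc f₁ hf₁⟩
    obtain ⟨f', hf'⟩ := exists_extension C (two_of hS N) (m + 1 + 1) (-1)
      (fun _ => h0 N hN) (fun j _ => h1 N hN j) f₂.hom
    refine ⟨ModuleCat.ofHom f', ?_⟩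
    rw [Dat.cplx_d]
    refine Eq.trans ?_ hf₂
    ext x
    exact LinearMap.congr_fun hf' (C.dat.pMap (m + 1) x)
  · have h := C.dat.cplx_kernel 0
    rw [zero_add] at h
    exact h

end gor

section main

variable {L : FirstOrder.Language.{u, u}} {Λ : Type u}

theorem not_deconstructible_std (hΛ : ℵ₀ ≤ #Λ) (hL : L.card ≤ #Λ)
    {𝒦 : Set (Bundled.{u} L.Structure)} (h𝒦 : ViolatesVP 𝒦)
    (hU : ∀ B ∈ 𝒦, #Λ ≤ #B → ∃ U : Ultrafilter (El L Λ B),
      CountableInterFilter (U : Filter (El L Λ B)) ∧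
      ∀ x : El L Λ B, ∀ᶠ y in (U : Filter (El L Λ B)), x.le y)
    (𝒟 : Set (ModuleCat.{u} (DD (ℤ → SS L Λ) (shift (SS L Λ)))))
    (h1 : StdXGP (vclass SS.two (testClass Λ 𝒦)) ⊆ 𝒟)
    (h2 : 𝒟 ⊆ PerpOne (vclass SS.two (testClass Λ 𝒦))) : ¬ Deconstructible 𝒟 := by
  refine not_deconstructible SS.two (testClass Λ 𝒦) 𝒟 h2 ?_
  intro ι T
  let c : Cardinal.{u} := max #Λ (⨆ i, #(T i))
  obtain ⟨B, hB, hcB⟩ := exists_large 𝒦 h𝒦.1 h𝒦.2 c
  have hΛB : #Λ ≤ #B := (le_max_left _ _).trans hcB.le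
  obtain ⟨U, hU1, hU2⟩ := hU B hB hΛB
  let M : ModuleCat.{u} (SS L Λ) := ModuleCat.of _ (El.pset (L := L) (Λ := Λ) B).V
  let C := res M SS.two
  refine ⟨C, M, cov (S := SS L Λ) M, ?_, ?_, cov_surjective M, ?_, ?_⟩
  · apply h1
    refine C.gor_mem_stdXGP SS.two _ (fun N hN g hg => ?_) (fun N hN j g hg => ?_)
    · exact res_h0 SS.two (fun g' => hom_eq_zero hΛ hL h𝒦 hB hΛB hN g') g hg
    · obtain ⟨B', hB', T', hT', rfl⟩ := hN
      exact res_h1 SS.two (fun n e => ext_eq_zero hΛ hL hΛB U hU2 n _ e) j g hg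
  · intro x
    exact cov_syzIncl M 0 _
  · obtain ⟨x, _⟩ := El.exists_ge (L := L) hΛ hL hΛB ∅ (by simp)
    refine ⟨(El.pset (L := L) (Λ := Λ) B).b (some x), fun h => ?_⟩
    exact one_ne_zero (Finsupp.single_eq_zero.1 h)
  · intro i f
    have hi : #(T i) ≤ c := (le_ciSup bddAbove_of_small i).trans (le_max_right _ _)
    obtain ⟨T', hT', hf⟩ := exists_small hΛ hL c (le_max_left _ _) hcB.le hi f
    refine ⟨ModuleCat.of (SS L Λ) (El.pset (L := L) (Λ := Λ) T').V, El.mapV T'.subtype,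
      ⟨B, hB, T', ?_, rfl⟩, El.mapV_injective _, hf⟩
    rw [hT']
    exact hcB

/-- The filter generated by the cones. -/
def coneFilter (Λ : Type u) (A : Type u) [L.Structure A] (hΛ : ℵ₀ ≤ #Λ) (hL : L.card ≤ #Λ)
    (hA : #Λ ≤ #A) : Filter (El L Λ A) where
  sets := {s | ∃ x : El L Λ A, ∀ y, x.le y → y ∈ s}
  univ_sets := by
    obtain ⟨x, _⟩ := El.exists_ge (L := L) hΛ hL hA ∅ (by simp)
    exact ⟨x, fun _ _ => trivial⟩
  sets_of_superset := by
    rintro s t ⟨x, hx⟩ hst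
    exact ⟨x, fun y hy => hst (hx y hy)⟩
  inter_sets := by
    rintro s t ⟨x, hx⟩ ⟨y, hy⟩
    obtain ⟨z, hz1, hz2⟩ := El.exists_ge₂ hΛ hL hA x y
    exact ⟨z, fun w hw => ⟨hx w (El.le_trans hz1 hw), hy w (El.le_trans hz2 hw)⟩⟩

theorem exists_ultrafilter {κ : Cardinal.{u}} (hκ : OmegaOneStronglyCompact κ)
    (A : Type u) [L.Structure A] (hΛ : ℵ₀ ≤ #Λ) (hL : L.card ≤ #Λ)
    (hA : #Λ ≤ #A) (hκΛ : κ ≤ #Λ) : ∃ U : Ultrafilter (El L Λ A),
      CountableInterFilter (U : Filter (El L Λ A)) ∧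
      ∀ x : El L Λ A, ∀ᶠ y in (U : Filter (El L Λ A)), x.le y := by
  obtain ⟨U, hU1, hU2⟩ := hκ (El L Λ A) (coneFilter Λ A hΛ hL hA) (by
    rw [Filter.neBot_iff]
    intro h
    have h1 : (∅ : Set (El L Λ A)) ∈ coneFilter Λ A hΛ hL hA := by
      rw [h]; exact Filter.mem_bot
    obtain ⟨x, hx⟩ := h1
    exact hx x (El.le_refl x)) ⟨by
    intro s hs hsF
    have h1 : ∀ t : s, ∃ x : El L Λ A, ∀ y, x.le y → y ∈ t.1 := fun t => hsF t.1 t.2
    choose x hx using h1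
    obtain ⟨z, hz⟩ := El.exists_ge_family (L := L) hΛ hL hA (hs.le.trans hκΛ) x
    exact ⟨z, fun y hy t ht => hx ⟨t, ht⟩ y (El.le_trans (hz ⟨t, ht⟩) hy)⟩⟩
  refine ⟨U, hU2, fun x => hU1 ?_⟩
  exact ⟨x, fun y hy => hy⟩

end main

end H54
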