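import Pool.Agent.H54.DGS.UPSet

/-!
# Quotients of monomial modules
-/

universe u

open FirstOrder FirstOrder.Language Filter

namespace H54

variable {L : FirstOrder.Language.{u, u}} {Λ : Type u}

section quo

variable (W : PSet L Λ) (p : W.Y → Prop) (hp : ∀ m y z, p y → W.a m y = some z → p z)

open Classical in
theorem PSet.quo_key (m : Mor L Λ) (y z : {y : W.Y // ¬ p y}) :
    ((W.a m y.1).bind fun z => if h : p z then none else some (⟨z, h⟩ : {y // ¬ p y})) =
      some z ↔ W.a m y.1 = some z.1 := by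
  rw [Option.bind_eq_some_iff]
  constructor
  · rintro ⟨w, hw, hz⟩
    split_ifs at hz with h
    cases hz
    exact hw
  · intro h
    refine ⟨z.1, h, ?_⟩
    rw [dif_neg z.2]

open Classical in
/-- The quotient of a set with partial action by a closed subset. -/
noncomputable def PSet.quo : PSet L Λ where
  Y := {y : W.Y // ¬ p y}
  a m y := (W.a m y.1).bind fun z => if h : p z then none else some ⟨z, h⟩
  assoc m m' y := by
    have key := W.quo_key p
    ext z
    rw [Option.bind_eq_some_iff, Option.bind_eq_some_iff]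
    have h0 := W.assoc m m' y.1
    constructor
    · rintro ⟨w, hw, hz⟩
      rw [key] at hw hz
      rw [hw, Option.bind_some, hz] at h0
      obtain ⟨c, hc, hc'⟩ := Option.bind_eq_some_iff.1 h0.symm
      exact ⟨c, hc, (key _ _ _).2 hc'⟩
    · rintro ⟨c, hc, hz⟩
      rw [key] at hz
      rw [hc, Option.bind_some, hz] at h0
      obtain ⟨w, hw, hw'⟩ := Option.bind_eq_some_iff.1 h0
      have hpw : ¬ p w := fun h => z.2 (hp _ _ _ h hw')
      exact ⟨⟨w, hpw⟩, (key _ _ ⟨w, hpw⟩).2 hw, (key _ _ _).2 hw'⟩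

theorem PSet.quo_a_eq_some (m : Mor L Λ) (y z : (W.quo p hp).Y) :
    (W.quo p hp).a m y = some z ↔ W.a m y.1 = some z.1 :=
  W.quo_key p m y z

theorem PSet.quo_a_eq_none (m : Mor L Λ) (y : (W.quo p hp).Y)
    (h : ∀ z, W.a m y.1 = some z → p z) : (W.quo p hp).a m y = none := by
  rcases hz : (W.quo p hp).a m y with _ | z
  · rfl
  · exact absurd (h z.1 ((W.quo_a_eq_some p hp m y z).1 hz)) z.2

open Classical in
/-- The values of the projection on the basis. -/
noncomputable def PSet.quoVal (w : W.Y) : (W.quo p hp).V :=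
  if h : p w then 0 else (W.quo p hp).b (some ⟨w, h⟩)

theorem PSet.quoVal_of (w : W.Y) (h : p w) : W.quoVal p hp w = 0 := by
  unfold PSet.quoVal
  rw [dif_pos h]

theorem PSet.quoVal_not (w : (W.quo p hp).Y) :
    W.quoVal p hp w.1 = (W.quo p hp).b (some w) := by
  unfold PSet.quoVal
  rw [dif_neg w.2]
  rfl

theorem PSet.gen_smul_quoVal (m : Mor L Λ) (w : W.Y) :
    gen m • W.quoVal p hp w = (W.a m w).elim 0 (W.quoVal p hp) := by
  by_cases h : p w
  · rw [W.quoVal_of p hp w h, smul_zero]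
    rcases hz : W.a m w with _ | z
    · rfl
    · exact (W.quoVal_of p hp z (hp _ _ _ h hz)).symm
  · let w' : (W.quo p hp).Y := ⟨w, h⟩
    change gen m • W.quoVal p hp w'.1 = _
    rw [W.quoVal_not p hp w', PSet.gen_smul_b, Option.bind_some]
    rcases hz : W.a m w with _ | z
    · rw [W.quo_a_eq_none p hp m w' (fun z hz' => by
        have : W.a m w = some z := hz'
        rw [hz] at this; cases this)]
      exact map_zero _
    · by_cases h' : p z
      · rw [W.quo_a_eq_none p hp m w' (fun z' hz' => by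
          have : W.a m w = some z' := hz'
          rw [hz] at this
          cases this
          exact h')]
        exact (map_zero (W.quo p hp).vmk).trans (W.quoVal_of p hp z h').symm
      · have h1 : (W.quo p hp).a m w' = some ⟨z, h'⟩ :=
          (W.quo_a_eq_some p hp m w' ⟨z, h'⟩).2 hz
        rw [h1]
        exact (W.quoVal_not p hp ⟨z, h'⟩).symm

/-- The projection. -/
noncomputable def PSet.quoPi : W.V →ₗ[SS L Λ] (W.quo p hp).V :=
  W.lift (W.quoVal p hp) (W.gen_smul_quoVal p hp)

theorem PSet.quoPi_b (w : W.Y) : W.quoPi p hp (W.b (some w)) = W.quoVal p hp w :=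
  PSet.lift_b _ _ _ w

/-- The additive section. -/
noncomputable def PSet.quoJ : (W.quo p hp).V →+ W.V :=
  (W.quo p hp).addLift (char_two L Λ W.V) fun y => W.b (some y.1)

theorem PSet.quoJ_b (y : (W.quo p hp).Y) :
    W.quoJ p hp ((W.quo p hp).b (some y)) = W.b (some y.1) :=
  (W.quo p hp).addLift_b (char_two L Λ W.V) (fun y => W.b (some y.1)) (some y)

theorem PSet.quoPi_quoJ (v : (W.quo p hp).V) : W.quoPi p hp (W.quoJ p hp v) = v := by
  refine PSet.V_induction _ (p := fun v => W.quoPi p hp (W.quoJ p hp v) = v) ?_ ?_ ?_ v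
  · rw [map_zero, map_zero]
  · intro v w hv hw
    rw [map_add, map_add, hv, hw]
  · intro y
    rw [PSet.quoJ_b, PSet.quoPi_b, PSet.quoVal_not]

theorem PSet.quoPi_surjective : Function.Surjective (W.quoPi p hp) := fun v =>
  ⟨_, W.quoPi_quoJ p hp v⟩

theorem PSet.gen_smul_quoJ (m : Mor L Λ) (v : (W.quo p hp).V)
    (h : ∀ y ∈ ((W.quo p hp).val v).support, (W.quo p hp).a m y ≠ none) :
    gen m • W.quoJ p hp v = W.quoJ p hp (gen m • v) := by
  have hv : v = ∑ y ∈ ((W.quo p hp).val v).support, (W.quo p hp).b (some y) := by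
    have h1 := congrArg (W.quo p hp).vmk (finsupp_eq_sum ((W.quo p hp).val v))
    rw [map_sum] at h1
    exact h1
  generalize hT : ((W.quo p hp).val v).support = T at hv h
  rw [hv, map_sum, Finset.smul_sum, Finset.smul_sum, map_sum]
  refine Finset.sum_congr rfl fun y hy => ?_
  obtain ⟨z, hz⟩ := Option.ne_none_iff_exists'.1 (h y hy)
  rw [PSet.quoJ_b, PSet.gen_smul_b, PSet.gen_smul_b, Option.bind_some, Option.bind_some, hz,
    PSet.quoJ_b, (W.quo_a_eq_some p hp m y z).1 hz]

end quo

section exact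

variable {Y W : PSet L Λ} (φ : Y.Y → W.Y) (hφ : ∀ m y, W.a m (φ y) = (Y.a m y).map φ)

include hφ in
theorem range_closed (m : Mor L Λ) (y z : W.Y) (hy : y ∈ Set.range φ)
    (hz : W.a m y = some z) : z ∈ Set.range φ := by
  obtain ⟨y, rfl⟩ := hy
  rw [hφ, Option.map_eq_some_iff] at hz
  obtain ⟨w, _, hw⟩ := hz
  exact ⟨w, hw⟩

theorem mapV_exact :
    Function.Exact (PSet.mapV φ hφ) (W.quoPi (· ∈ Set.range φ) (range_closed φ hφ)) := by
  intro v
  constructor
  · intro hv
    have key : v - W.quoJ (· ∈ Set.range φ) (range_closed φ hφ)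
        (W.quoPi (· ∈ Set.range φ) (range_closed φ hφ) v) ∈
          LinearMap.range (PSet.mapV φ hφ) := by
      refine PSet.V_induction _ (p := fun v => v - W.quoJ (· ∈ Set.range φ) (range_closed φ hφ)
        (W.quoPi (· ∈ Set.range φ) (range_closed φ hφ) v) ∈
          LinearMap.range (PSet.mapV φ hφ)) ?_ ?_ ?_ v
      · rw [map_zero, map_zero, sub_zero]
        exact Submodule.zero_mem _
      · intro v w hv hw
        rw [map_add, map_add, add_sub_add_comm]
        exact Submodule.add_mem _ hv hw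
      · intro w
        rw [PSet.quoPi_b]
        by_cases h : w ∈ Set.range φ
        · rw [W.quoVal_of _ _ w h, map_zero, sub_zero]
          obtain ⟨y, rfl⟩ := h
          exact ⟨Y.b (some y), PSet.mapV_b φ hφ y⟩
        · let w' : (W.quo (· ∈ Set.range φ) (range_closed φ hφ)).Y := ⟨w, h⟩
          have h1 := W.quoVal_not (· ∈ Set.range φ) (range_closed φ hφ) w'
          have h2 := W.quoJ_b (· ∈ Set.range φ) (range_closed φ hφ) w'
          change W.b (some w) - W.quoJ _ _ (W.quoVal _ _ w'.1) ∈ _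
          rw [h1, h2, sub_self]
          exact Submodule.zero_mem _
    rw [hv, map_zero, sub_zero] at key
    exact key
  · rintro ⟨w, rfl⟩
    have h1 : (W.quoPi (· ∈ Set.range φ) (range_closed φ hφ)) ∘ₗ (PSet.mapV φ hφ) = 0 := by
      refine PSet.hom_ext _ fun y => ?_
      rw [LinearMap.comp_apply, PSet.mapV_b, PSet.quoPi_b, W.quoVal_of _ _ _ ⟨y, rfl⟩]
      rfl
    exact LinearMap.congr_fun h1 w

end exact

section surj

variable {A : Type u} [L.Structure A]

theorem El.exists_ge₂ (hΛ : Cardinal.aleph0 ≤ Cardinal.mk Λ) (hL : L.card ≤ Cardinal.mk Λ)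
    (hA : Cardinal.mk Λ ≤ Cardinal.mk A) (x y : El L Λ A) :
    ∃ z : El L Λ A, x.le z ∧ y.le z := by
  obtain ⟨z, hz⟩ := El.exists_ge (L := L) hΛ hL hA (Set.range x.fn ∪ Set.range y.fn) (by
    refine (Cardinal.mk_union_le _ _).trans ?_
    exact Cardinal.add_le_of_le hΛ x.mk_range_le y.mk_range_le)
  exact ⟨z, Set.subset_union_left.trans hz, Set.subset_union_right.trans hz⟩

/-- Homomorphisms from the module of a large structure lift along quotients of monomial
modules. -/
theorem exists_lift_quo (hΛ : Cardinal.aleph0 ≤ Cardinal.mk Λ) (hL : L.card ≤ Cardinal.mk Λ)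
    (hA : Cardinal.mk Λ ≤ Cardinal.mk A) (W : PSet L Λ) (p : W.Y → Prop)
    (hp : ∀ m y z, p y → W.a m y = some z → p z)
    (f : (El.pset (L := L) (Λ := Λ) A).V →ₗ[SS L Λ] (W.quo p hp).V) :
    ∃ g : (El.pset (L := L) (Λ := Λ) A).V →ₗ[SS L Λ] W.V, ∀ v, W.quoPi p hp (g v) = f v := by
  obtain ⟨x₀, -, hst⟩ := exists_stable (W.quo p hp) f hΛ hL hA
  let F : El L Λ A → (W.quo p hp).V := fun y => f ((El.pset A).b (some y))
  have hF : ∀ (x y : El L Λ A) (h : x.le y), gen (El.tr h) • F y = F x := by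
    intro x y h
    change gen (El.tr h) • f _ = f _
    rw [← map_smul, PSet.gen_smul_b]
    congr 2
    exact El.act_tr h
  have hJ : ∀ (y y' : El L Λ A) (_ : x₀.le y) (h' : y.le y'),
      gen (El.tr h') • W.quoJ p hp (F y') = W.quoJ p hp (F y) := by
    intro y y' h h'
    rw [← hF y y' h']
    refine W.gen_smul_quoJ p hp _ _ fun z hz hn => ?_
    obtain ⟨w, _, hw⟩ := (hst y y' h h').1 z hz
    rw [hn] at hw
    cases hw
  choose up hup1 hup2 using fun x : El L Λ A => El.exists_ge₂ hΛ hL hA x₀ x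
  let g₀ : El L Λ A → W.V := fun x => gen (El.tr (hup2 x)) • W.quoJ p hp (F (up x))
  have hind : ∀ (x y : El L Λ A) (h : x.le y) (_ : x₀.le y),
      gen (El.tr h) • W.quoJ p hp (F y) = g₀ x := by
    intro x y h h0
    obtain ⟨z, hz1, hz2⟩ := El.exists_ge₂ hΛ hL hA y (up x)
    change _ = gen (El.tr (hup2 x)) • W.quoJ p hp (F (up x))
    rw [← hJ y z h0 hz1, ← hJ (up x) z (hup1 x) hz2, ← mul_smul, ← mul_smul,
      gen_mul_gen (El.tr_comp h hz1), gen_mul_gen (El.tr_comp (hup2 x) hz2)]
  have hg₀ : ∀ m (x : (El.pset (L := L) (Λ := Λ) A).Y),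
      gen m • g₀ x = ((El.pset (L := L) (Λ := Λ) A).a m x).elim 0 g₀ := by
    intro m x
    change gen m • gen (El.tr (hup2 x)) • W.quoJ p hp (F (up x)) = (El.act m x).elim 0 g₀
    rcases hz : El.act m x with _ | z
    · rw [← mul_smul, gen_mul_gen_none (act_none hz _), zero_smul]
      rfl
    · rw [← mul_smul, gen_mul_gen (act_some hz _)]
      exact hind z (up x) _ (hup1 x)
  refine ⟨(El.pset A).lift g₀ hg₀, fun v => ?_⟩
  have key : (W.quoPi p hp) ∘ₗ (El.pset A).lift g₀ hg₀ = f := by
    refine PSet.hom_ext _ fun x => ?_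
    rw [LinearMap.comp_apply, PSet.lift_b]
    change W.quoPi p hp (gen (El.tr (hup2 x)) • W.quoJ p hp (F (up x))) = _
    rw [map_smul, PSet.quoPi_quoJ, hF]
  exact LinearMap.congr_fun key v

end surj

end H54
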