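import Pool.Agent.H54.DGS.Lift

/-!
# Ultrapowers of monomial modules
-/

universe u

open FirstOrder FirstOrder.Language Filter

namespace H54

variable {L : FirstOrder.Language.{u, u}} {Λ : Type u} {I : Type u} (U : Ultrafilter I)

section opt

variable {Y : Type u}

theorem germ_map_some_injective :
    Function.Injective (Germ.map (l := (U : Filter I)) (some : Y → Option Y)) := by
  intro a b h
  induction a using Germ.inductionOn with | _ a => ?_
  induction b using Germ.inductionOn with | _ b => ?_
  rw [Germ.map_coe, Germ.map_coe, Germ.coe_eq] at h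
  rw [Germ.coe_eq]
  exact h.mono fun i hi => Option.some_injective _ hi

open Classical in
/-- From germs of options to options of germs. -/
noncomputable def optGerm (o : Germ (U : Filter I) (Option Y)) :
    Option (Germ (U : Filter I) Y) :=
  if h : ∃ y : Germ (U : Filter I) Y, Germ.map some y = o then some h.choose else none

theorem optGerm_eq_some {o : Germ (U : Filter I) (Option Y)} {y : Germ (U : Filter I) Y} :
    optGerm U o = some y ↔ Germ.map some y = o := by
  unfold optGerm
  constructor
  · intro h
    split_ifs at h with h1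
    · cases h
      exact h1.choose_spec
  · intro h
    have h1 : ∃ y : Germ (U : Filter I) Y, Germ.map some y = o := ⟨y, h⟩
    rw [dif_pos h1]
    congr 1
    exact germ_map_some_injective U (h1.choose_spec.trans h.symm)

theorem optGerm_coe_eq_some {o : I → Option Y} {y : I → Y} :
    optGerm U (o : Germ (U : Filter I) (Option Y)) = some (y : Germ (U : Filter I) Y) ↔
      ∀ᶠ i in (U : Filter I), o i = some (y i) := by
  rw [optGerm_eq_some, Germ.map_coe, Germ.coe_eq]
  exact ⟨fun h => h.mono fun i hi => hi.symm, fun h => h.mono fun i hi => hi.symm⟩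

theorem optGerm_coe_eq_none {o : I → Option Y} :
    optGerm U (o : Germ (U : Filter I) (Option Y)) = none ↔
      ∀ᶠ i in (U : Filter I), o i = none := by
  constructor
  · intro h
    by_contra hc
    have h1 : ∀ᶠ i in (U : Filter I), ¬ o i = none := Ultrafilter.eventually_not.2 hc
    obtain ⟨i₀, hi₀⟩ := h1.exists
    obtain ⟨y₀, _⟩ := Option.ne_none_iff_exists'.1 hi₀
    have h2 : ∀ i, ∃ y, o i ≠ none → o i = some y := by
      intro i
      by_cases hi : o i = none
      · exact ⟨y₀, fun h => absurd hi h⟩
      · obtain ⟨y, hy⟩ := Option.ne_none_iff_exists'.1 hi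
        exact ⟨y, fun _ => hy⟩
    choose y hy using h2
    have h3 : optGerm U (o : Germ (U : Filter I) (Option Y)) =
        some (y : Germ (U : Filter I) Y) :=
      (optGerm_coe_eq_some U).2 (h1.mono fun i hi => hy i hi)
    rw [h] at h3
    cases h3
  · intro h
    rcases hy : optGerm U (o : Germ (U : Filter I) (Option Y)) with _ | y
    · rfl
    · induction y using Germ.inductionOn with | _ y => ?_
      have h1 := (optGerm_coe_eq_some U).1 hy
      obtain ⟨i, hi, hi'⟩ := (h.and h1).exists
      rw [hi] at hi'
      cases hi'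

end opt

/-- The ultrapower of a set with partial action. -/
noncomputable def PSet.ult (Y : PSet L Λ) : PSet L Λ where
  Y := Germ (U : Filter I) Y.Y
  a m y := optGerm U (Germ.map (Y.a m) y)
  assoc m m' y := by
    induction y using Germ.inductionOn with | _ f => ?_
    ext z
    induction z using Germ.inductionOn with | _ z => ?_
    simp only [Option.bind_eq_some_iff]
    constructor
    · rintro ⟨w, hw, hz⟩
      induction w using Germ.inductionOn with | _ w => ?_
      rw [Germ.map_coe, optGerm_coe_eq_some] at hw hz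
      have h1 : ∀ᶠ i in (U : Filter I), ((m.comp m').bind fun c => Y.a c (f i)) = some (z i) := by
        refine (hw.and hz).mono ?_
        rintro i ⟨h2, h3⟩
        have h2' : Y.a m' (f i) = some (w i) := h2
        have h3' : Y.a m (w i) = some (z i) := h3
        rw [← Y.assoc, h2', Option.bind_some, h3']
      obtain ⟨i, hi⟩ := h1.exists
      rw [Option.bind_eq_some_iff] at hi
      obtain ⟨c, hc, _⟩ := hi
      refine ⟨c, hc, ?_⟩
      rw [Germ.map_coe, optGerm_coe_eq_some]
      refine h1.mono fun i hi => ?_
      rw [hc, Option.bind_some] at hi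
      exact hi
    · rintro ⟨c, hc, hz⟩
      rw [Germ.map_coe, optGerm_coe_eq_some] at hz
      have h1 : ∀ i, ∃ w : Y.Y, Y.a c (f i) = some (z i) →
          Y.a m' (f i) = some w ∧ Y.a m w = some (z i) := by
        intro i
        by_cases hi : Y.a c (f i) = some (z i)
        · have h2 := Y.assoc m m' (f i)
          rw [hc, Option.bind_some, hi, Option.bind_eq_some_iff] at h2
          obtain ⟨w, h3, h4⟩ := h2
          exact ⟨w, fun _ => ⟨h3, h4⟩⟩
        · exact ⟨f i, fun h => absurd h hi⟩
      choose w hw using h1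
      refine ⟨(w : Germ (U : Filter I) Y.Y), ?_, ?_⟩
      · rw [Germ.map_coe, optGerm_coe_eq_some]
        exact hz.mono fun i hi => (hw i hi).1
      · rw [Germ.map_coe, optGerm_coe_eq_some]
        exact hz.mono fun i hi => (hw i hi).2

variable (Y : PSet L Λ)

/-- The germ of basis elements. -/
noncomputable def PSet.gb (y : Germ (U : Filter I) Y.Y) : Germ (U : Filter I) Y.V :=
  Germ.map (fun y => Y.b (some y)) y

theorem PSet.gen_smul_gb (m : Mor L Λ) (y : (Y.ult U).Y) :
    gen m • Y.gb U y = ((Y.ult U).a m y).elim 0 (Y.gb U) := by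
  change gen m • Y.gb U y = (optGerm U (Germ.map (Y.a m) y)).elim 0 (Y.gb U)
  have hy : ∃ f : I → Y.Y, y = (f : Germ (U : Filter I) Y.Y) := by
    induction (y : Germ (U : Filter I) Y.Y) using Germ.inductionOn with | _ f => ?_
    exact ⟨f, rfl⟩
  obtain ⟨f, rfl⟩ := hy
  have h1 : gen m • Y.gb U (f : Germ (U : Filter I) Y.Y) =
      ((fun i => Y.b (Y.a m (f i)) : I → Y.V) : Germ (U : Filter I) Y.V) := by
    change ((gen m • ((fun y => Y.b (some y)) ∘ f) : I → Y.V) : Germ (U : Filter I) Y.V) = _
    congr 1
    ext i : 1
    exact Y.gen_smul_b m (some (f i))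
  rw [h1, Germ.map_coe]
  rcases hz : optGerm U ((Y.a m ∘ f : I → Option Y.Y) : Germ (U : Filter I) (Option Y.Y))
    with _ | z
  · have h2 := (optGerm_coe_eq_none U).1 hz
    change _ = ((0 : I → Y.V) : Germ (U : Filter I) Y.V)
    rw [Germ.coe_eq]
    refine h2.mono fun i hi => ?_
    have hi' : Y.a m (f i) = none := hi
    change Y.b (Y.a m (f i)) = 0
    rw [hi']
    exact map_zero _
  · induction z using Germ.inductionOn with | _ z => ?_
    have h2 := (optGerm_coe_eq_some U).1 hz
    change _ = ((fun i => Y.b (some (z i)) : I → Y.V) : Germ (U : Filter I) Y.V)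
    rw [Germ.coe_eq]
    refine h2.mono fun i hi => ?_
    have hi' : Y.a m (f i) = some (z i) := hi
    change Y.b (Y.a m (f i)) = _
    rw [hi']

/-- The comparison of the monomial module of the ultrapower and the ultrapower of the
monomial module. -/
noncomputable def PSet.theta : (Y.ult U).V →ₗ[SS L Λ] Germ (U : Filter I) Y.V :=
  (Y.ult U).lift (Y.gb U) (Y.gen_smul_gb U)

theorem PSet.theta_b (y : (Y.ult U).Y) : Y.theta U ((Y.ult U).b (some y)) = Y.gb U y :=
  PSet.lift_b _ _ _ y

theorem germ_rep {X : Type u} (y : Germ (U : Filter I) X) :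
    ∃ f : I → X, y = (f : Germ (U : Filter I) X) := by
  induction y using Germ.inductionOn with | _ f => ?_
  exact ⟨f, rfl⟩

theorem germ_coe_sum {X : Type u} [AddCommGroup X] {J : Type u} (T : Finset J) (f : J → I → X) :
    ((fun i => ∑ j ∈ T, f j i : I → X) : Germ (U : Filter I) X) =
      ∑ j ∈ T, ((f j : I → X) : Germ (U : Filter I) X) := by
  classical
  induction T using Finset.induction with
  | empty => simp only [Finset.sum_empty]; rfl
  | insert j T hj ih =>
    rw [Finset.sum_insert hj, ← ih, ← Germ.coe_add]
    congr 1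
    ext i
    rw [Finset.sum_insert hj]
    rfl

theorem PSet.theta_injective : Function.Injective (Y.theta U) := by
  classical
  rw [injective_iff_map_eq_zero]
  intro v hv
  choose rep hrep using germ_rep U (X := Y.Y)
  let T : Finset (Germ (U : Filter I) Y.Y) := ((Y.ult U).val v).support
  have hv1 : v = (Y.ult U).vmk (∑ y ∈ T, Finsupp.single y 1) := by
    exact congrArg (Y.ult U).vmk (finsupp_eq_sum ((Y.ult U).val v))
  have hv2 : v = ∑ y ∈ T, (Y.ult U).b (some y) := by
    rw [hv1, map_sum]
    rfl
  have hv3 : Y.theta U v = ∑ y ∈ T, Y.gb U y := by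
    rw [hv2, map_sum]
    exact Finset.sum_congr rfl fun y _ => Y.theta_b U y
  have hv4 : Y.theta U v =
      ((fun i => ∑ y ∈ T, Y.b (some (rep y i)) : I → Y.V) : Germ (U : Filter I) Y.V) := by
    rw [hv3, germ_coe_sum]
    refine Finset.sum_congr rfl fun y _ => ?_
    conv_lhs => rw [hrep y]
    rfl
  rw [hv] at hv4
  have h1 : ∀ᶠ i in (U : Filter I), (0 : Y.V) = ∑ y ∈ T, Y.b (some (rep y i)) :=
    Germ.coe_eq.1 hv4
  have h2 : ∀ᶠ i in (U : Filter I), ∀ y ∈ T, ∀ y' ∈ T, y ≠ y' → rep y i ≠ rep y' i := by
    rw [Filter.eventually_all_finset]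
    intro y _
    rw [Filter.eventually_all_finset]
    intro y' _
    by_cases hyy : y = y'
    · exact Eventually.of_forall fun i h => absurd hyy h
    · have : ∀ᶠ i in (U : Filter I), ¬ rep y i = rep y' i := by
        rw [Ultrafilter.eventually_not]
        intro h
        apply hyy
        rw [hrep y, hrep y', Germ.coe_eq]
        exact h
      exact this.mono fun i hi _ => hi
  obtain ⟨i, hi1, hi2⟩ := (h1.and h2).exists
  have hT : T = ∅ := by
    by_contra hne
    obtain ⟨y₀, hy₀⟩ := Finset.nonempty_iff_ne_empty.2 hne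
    have h3 := congrArg (fun w => Y.val w (rep y₀ i)) hi1
    simp only [map_zero, map_sum, Finsupp.coe_zero, Pi.zero_apply,
      Finsupp.finsetSum_apply] at h3
    rw [Finset.sum_eq_single y₀] at h3
    · have h4 : Y.val (Y.b (some (rep y₀ i))) (rep y₀ i) = 1 := Finsupp.single_eq_same
      rw [h4] at h3
      exact zero_ne_one h3
    · intro y hy hne
      have h4 : Y.val (Y.b (some (rep y i))) (rep y₀ i) = 0 :=
        Finsupp.single_eq_of_ne (Ne.symm (hi2 y hy y₀ hy₀ hne))
      exact h4
    · intro h; exact absurd hy₀ h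
  rw [hv2, hT, Finset.sum_empty]

theorem exists_const_of_countable [CountableInterFilter (U : Filter I)] (c : I → ℕ) :
    ∃ n, ∀ᶠ i in (U : Filter I), c i = n := by
  by_contra hc
  push Not at hc
  have h1 : ∀ n : ℕ, ∀ᶠ i in (U : Filter I), ¬ c i = n := fun n => hc n
  have h2 := eventually_countable_forall.2 h1
  obtain ⟨i, hi⟩ := h2.exists
  exact hi (c i) rfl

theorem PSet.theta_surjective [CountableInterFilter (U : Filter I)] :
    Function.Surjective (Y.theta U) := by
  classical
  have key : ∀ (n : ℕ) (f : I → Y.V),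
      (∀ᶠ i in (U : Filter I), (Y.val (f i)).support.card = n) →
      ((f : Germ (U : Filter I) Y.V)) ∈ Set.range (Y.theta U) := by
    intro n
    induction n with
    | zero =>
      intro f hf
      refine ⟨0, ?_⟩
      rw [map_zero]
      change ((fun _ => 0 : I → Y.V) : Germ (U : Filter I) Y.V) = _
      rw [Germ.coe_eq]
      refine hf.mono fun i hi => ?_
      rw [Finset.card_eq_zero, Finsupp.support_eq_empty] at hi
      exact (Y.val_injective (by rw [hi, map_zero])).symm
    | succ n ih =>
      intro f hf
      obtain ⟨i₀, hi₀⟩ := hf.exists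
      have hne : ((Y.val (f i₀)).support).Nonempty := Finset.card_pos.1 (by omega)
      obtain ⟨y₀, _⟩ := hne
      have hex : ∀ i, ∃ y : Y.Y, (Y.val (f i)).support.card = n + 1 →
          y ∈ (Y.val (f i)).support := by
        intro i
        by_cases hi : (Y.val (f i)).support.card = n + 1
        · obtain ⟨y, hy⟩ := Finset.card_pos.1 (by omega : 0 < (Y.val (f i)).support.card)
          exact ⟨y, fun _ => hy⟩
        · exact ⟨y₀, fun h => absurd h hi⟩
      choose y hy using hex
      let f' : I → Y.V := fun i => f i + Y.b (some (y i))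
      have hf' : ∀ᶠ i in (U : Filter I), (Y.val (f' i)).support.card = n := by
        refine hf.mono fun i hi => ?_
        have h1 := hy i hi
        have h2 : (Y.val (f' i)).support = (Y.val (f i)).support.erase (y i) := by
          ext z
          rw [Finset.mem_erase, Finsupp.mem_support_iff, Finsupp.mem_support_iff]
          have h3 : Y.val (f' i) z = Y.val (f i) z + Finsupp.single (y i) (1 : ZMod 2) z := rfl
          rw [h3]
          by_cases hz : z = y i
          · subst hz
            rw [Finsupp.single_eq_same, zmod2_eq_one (Finsupp.mem_support_iff.1 h1)]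
            simp only [ne_eq, not_true_eq_false, false_and, iff_false, not_not]
            decide
          · rw [Finsupp.single_eq_of_ne hz, add_zero]
            simp [hz]
        rw [h2, Finset.card_erase_of_mem h1, hi]
        rfl
      obtain ⟨v, hv⟩ := ih f' hf'
      refine ⟨v + (Y.ult U).b (some (y : Germ (U : Filter I) Y.Y)), ?_⟩
      rw [map_add, hv, Y.theta_b U (y : Germ (U : Filter I) Y.Y)]
      change ((f' + fun i => Y.b (some (y i)) : I → Y.V) : Germ (U : Filter I) Y.V) = _
      congr 1
      ext i : 1
      change f i + Y.b (some (y i)) + Y.b (some (y i)) = f i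
      rw [add_assoc, char_two L Λ Y.V, add_zero]
  intro g
  obtain ⟨f, rfl⟩ := germ_rep U g
  obtain ⟨n, hn⟩ := exists_const_of_countable U (fun i => (Y.val (f i)).support.card)
  exact key n f hn

/-- The diagonal embedding. -/
def PSet.dia (y : Y.Y) : (Y.ult U).Y := ((fun _ => y : I → Y.Y) : Germ (U : Filter I) Y.Y)

theorem PSet.a_dia (m : Mor L Λ) (y : Y.Y) :
    (Y.ult U).a m (Y.dia U y) = (Y.a m y).map (Y.dia U) := by
  change optGerm U (((Y.a m) ∘ fun _ => y : I → Option Y.Y) :
    Germ (U : Filter I) (Option Y.Y)) = _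
  rcases hz : Y.a m y with _ | z
  · exact (optGerm_coe_eq_none U).2 (Eventually.of_forall fun i => hz)
  · exact (optGerm_coe_eq_some U).2 (Eventually.of_forall fun i => hz)

theorem PSet.dia_injective : Function.Injective (Y.dia U) := by
  intro y y' h
  have h1 : ∀ᶠ i in (U : Filter I), y = y' := Germ.coe_eq.1 h
  exact h1.exists.choose_spec

theorem PSet.theta_dia (v : Y.V) :
    Y.theta U (PSet.mapV (Y.dia U) (Y.a_dia U) v) = ultDiag (U : Filter I) (SS L Λ) Y.V v := by
  have : (Y.theta U) ∘ₗ (PSet.mapV (Y.dia U) (Y.a_dia U)) =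
      ultDiag (U : Filter I) (SS L Λ) Y.V := by
    refine PSet.hom_ext _ fun y => ?_
    rw [LinearMap.comp_apply, PSet.mapV_b, Y.theta_b]
    rfl
  exact LinearMap.congr_fun this v

end H54
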